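import Pool.Agent.Helper89.SP.Defs

/-!
Project SP: the definition of `Tn` (Spec SP-15).
-/

set_option autoImplicit false

open MeasureTheory Set Real Slab

namespace Pool.Agent.Helper89.SP

/-- `T_n` -/
noncomputable def Tn (n : ℕ) (t : ℝ) : ℝ := T (List.replicate n (1 / √(n : ℝ))) t

end Pool.Agent.Helper89.SP
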